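import Pool.Agent.Helper70.SN.Defs

/-!
Basic facts on strong measure zero sets and the ideals `I_f`.
-/

namespace TukeySN

open Cardinal Filter

theorem Ext.of_prefix {x : ℕ → Bool} {s t : List Bool} (h : Ext x t) (hst : s <+: t) : Ext x s := by
  obtain ⟨u, rfl⟩ := hst
  intro i hi
  have hi' : i < (s ++ u).length := by rw [List.length_append]; omega
  have := h i hi'
  rwa [List.getElem_append_left hi] at this

theorem ext_take {x : ℕ → Bool} {s : List Bool} (h : Ext x s) (n : ℕ) : Ext x (s.take n) :=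
  h.of_prefix (List.take_prefix n s)

theorem IsSN.mono {X Y : Set (ℕ → Bool)} (h : IsSN Y) (hXY : X ⊆ Y) : IsSN X := by
  intro f
  obtain ⟨σ, h1, h2⟩ := h f
  exact ⟨σ, h1, fun x hx => h2 x (hXY hx)⟩

theorem IsSN.iUnion_nat {X : ℕ → Set (ℕ → Bool)} (h : ∀ m, IsSN (X m)) : IsSN (⋃ m, X m) := by
  intro f
  choose σ h1 h2 using fun m => h m fun j => f (Nat.pair m j)
  refine ⟨fun n => σ n.unpair.1 n.unpair.2, fun n => ?_, fun x hx => ?_⟩
  · rw [h1, Nat.pair_unpair]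
  · obtain ⟨m, hm⟩ := Set.mem_iUnion.1 hx
    obtain ⟨j, hj⟩ := h2 m x hm
    exact ⟨Nat.pair m j, by simpa using hj⟩

theorem isSN_empty : IsSN ∅ := fun f =>
  ⟨fun n => List.replicate (f n) false, fun _ => List.length_replicate, fun _ hx => hx.elim⟩

theorem isSN_singleton (x : ℕ → Bool) : IsSN {x} := by
  intro f
  refine ⟨fun n => List.ofFn fun i : Fin (f n) => x i, fun n => List.length_ofFn, ?_⟩
  rintro y rfl
  refine ⟨0, fun i hi => ?_⟩
  rw [List.getElem_ofFn]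

theorem isSN_sUnion {F : Set (Set (ℕ → Bool))} (hF : F.Countable) (h : ∀ X ∈ F, IsSN X) :
    IsSN (⋃₀ F) := by
  rcases F.eq_empty_or_nonempty with rfl | hne
  · simpa using isSN_empty
  · obtain ⟨g, rfl⟩ := hF.exists_eq_range hne
    rw [Set.sUnion_range]
    exact IsSN.iUnion_nat fun m => h _ ⟨m, rfl⟩

theorem isSN_iUnion {ι : Type} [Countable ι] {X : ι → Set (ℕ → Bool)} (h : ∀ i, IsSN (X i)) :
    IsSN (⋃ i, X i) := by
  rw [← Set.sUnion_range]
  refine isSN_sUnion (Set.countable_range X) ?_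
  rintro _ ⟨i, rfl⟩
  exact h i

theorem isSN_of_countable {X : Set (ℕ → Bool)} (h : X.Countable) : IsSN X := by
  have : X = ⋃ x : X, {(x : ℕ → Bool)} := by ext; simp
  rw [this]
  have : Countable X := h.to_subtype
  exact isSN_iUnion fun x => isSN_singleton x.1

theorem YI.mono {f : ℕ → ℕ} {X Y : Set (ℕ → Bool)} (h : Y ∈ YI f) (hXY : X ⊆ Y) : X ∈ YI f := by
  obtain ⟨σ, h1, h2⟩ := h
  exact ⟨σ, hXY.trans h1, h2⟩

theorem IsSN.mem_YI {f : ℕ → ℕ} (hf : StrictMono f) {X : Set (ℕ → Bool)} (h : IsSN X) :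
    X ∈ YI f := by
  choose σ h1 h2 using fun m : ℕ => h fun j => f ((Nat.pair m j) ^ (Nat.pair m j))
  refine ⟨fun n => σ n.unpair.1 n.unpair.2, fun x hx m => ?_, fun k => ?_⟩
  · obtain ⟨j, hj⟩ := h2 m x hx
    exact ⟨Nat.pair m j, Nat.left_le_pair m j, by simpa using hj⟩
  · filter_upwards [eventually_ge_atTop (k + 1)] with n hn
    rw [h1, Nat.pair_unpair]
    exact hf.monotone (Nat.pow_le_pow_right (by omega) (by omega))

theorem YI.union_aux {f : ℕ → ℕ} (hf : StrictMono f) {X Y : Set (ℕ → Bool)} (hX : X ∈ YI f)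
    (hY : Y ∈ YI f) : ∃ ρ : ℕ → List Bool, X ∪ Y ⊆ inftySet ρ ∧ LL f fun n => (ρ n).length := by
  obtain ⟨σ, h1, h2⟩ := hX
  obtain ⟨τ, h3, h4⟩ := hY
  refine ⟨fun n => if n % 2 = 0 then σ (n / 2) else τ (n / 2), ?_, fun k => ?_⟩
  · rintro x (hx | hx) m
    · obtain ⟨n, hn, he⟩ := h1 hx m
      refine ⟨2 * n, by omega, ?_⟩
      simpa using he
    · obtain ⟨n, hn, he⟩ := h3 hx m
      refine ⟨2 * n + 1, by omega, ?_⟩
      have e1 : (2 * n + 1) % 2 = 1 := by omega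
      have e2 : (2 * n + 1) / 2 = n := by omega
      simpa [e1, e2] using he
  · have h3k : 1 ≤ 3 ^ k := Nat.one_le_pow _ _ (by norm_num)
    obtain ⟨a, ha⟩ := eventually_atTop.1 (h2 (k + 1))
    obtain ⟨b, hb⟩ := eventually_atTop.1 (h4 (k + 1))
    filter_upwards [eventually_ge_atTop (2 * (a + b + 3 ^ k + 1))] with n hn
    have h5 : n ^ k ≤ (n / 2) ^ (k + 1) := by
      have h6 : n ≤ 3 * (n / 2) := by omega
      calc n ^ k ≤ (3 * (n / 2)) ^ k := Nat.pow_le_pow_left h6 k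
        _ = 3 ^ k * (n / 2) ^ k := mul_pow _ _ _
        _ ≤ (n / 2) * (n / 2) ^ k := Nat.mul_le_mul_right _ (by omega)
        _ = (n / 2) ^ (k + 1) := by ring
    refine (hf.monotone h5).trans ?_
    by_cases hp : n % 2 = 0
    · simpa [hp] using ha (n / 2) (by omega)
    · simpa [hp] using hb (n / 2) (by omega)

theorem YI.union_mem {f : ℕ → ℕ} (hf : StrictMono f) {X Y : Set (ℕ → Bool)} (hX : X ∈ YI f)
    (hY : Y ∈ YI f) : X ∪ Y ∈ YI f := YI.union_aux hf hX hY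

theorem isSN_of_forall_mem_YI {ι : Type} {f : ι → ℕ → ℕ} (hf : IsIncDominating f)
    {X : Set (ℕ → Bool)} (h : ∀ γ, X ∈ YI (f γ)) : IsSN X := by
  intro g
  obtain ⟨γ, hγ⟩ := hf.2 g
  obtain ⟨σ, h1, h2⟩ := h γ
  obtain ⟨m, hm⟩ := eventually_atTop.1 (hγ.and (h2 1))
  refine ⟨fun n => if m ≤ n then (σ n).take (g n) else List.replicate (g n) false, fun n => ?_,
    fun x hx => ?_⟩
  · dsimp only
    split_ifs with hn
    · have := hm n hn
      rw [pow_one] at this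
      rw [List.length_take]
      exact min_eq_left (this.1.trans this.2)
    · exact List.length_replicate
  · obtain ⟨n, hn, he⟩ := h1 hx m
    refine ⟨n, ?_⟩
    simp only [hn, if_true]
    exact ext_take he _

theorem univ_not_mem_YI {f : ℕ → ℕ} (hf : StrictMono f) : (Set.univ : Set (ℕ → Bool)) ∉ YI f := by
  rintro ⟨σ, h1, h2⟩
  obtain ⟨m, hm⟩ := eventually_atTop.1 (h2 2)
  set x : ℕ → Bool := fun n => !((σ n).getD n false) with hx
  obtain ⟨n, hn, he⟩ := h1 (Set.mem_univ x) (m + 2)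
  have h3 := hm n (by omega)
  have h4 : n < (σ n).length := by
    have h5 := hf.id_le (n ^ 2)
    simp only [id] at h5
    have h7 : n < n ^ 2 := by nlinarith
    exact lt_of_lt_of_le (h7.trans_le h5) h3
  have h6 := he n h4
  rw [hx] at h6
  simp only [List.getD_eq_getElem _ _ h4] at h6
  cases hb : (σ n)[n] <;> simp [hb] at h6

theorem aleph_one_le_non {f : ℕ → ℕ} (hf : StrictMono f) : ℵ₁ ≤ non (YI f) := by
  refine le_csInf ⟨_, Set.univ, univ_not_mem_YI hf, rfl⟩ ?_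
  rintro κ ⟨X, hX, rfl⟩
  by_contra hlt
  push Not at hlt
  have hc : X.Countable := Cardinal.countable_iff_lt_aleph_one X |>.2 hlt
  exact hX ((isSN_of_countable hc).mem_YI hf)

theorem aleph_one_le_minnon : ℵ₁ ≤ minnon := by
  refine le_csInf ⟨_, id, strictMono_id, rfl⟩ ?_
  rintro κ ⟨f, hf, rfl⟩
  exact aleph_one_le_non hf

theorem countable_Iio (γ : (ℵ₁ : Cardinal.{0}).ord.ToType) : (Set.Iio γ).Countable :=
  (Cardinal.countable_iff_lt_aleph_one _).2 (Cardinal.mk_Iio_toType_ord_lt γ)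

theorem countable_Iic (γ : (ℵ₁ : Cardinal.{0}).ord.ToType) : (Set.Iic γ).Countable := by
  rw [← Set.Iio_insert]
  exact (countable_Iio γ).insert γ

theorem aleph_one_le_addSN (hne : ∃ F : Set (Set (ℕ → Bool)), (∀ X ∈ F, IsSN X) ∧ ¬ IsSN (⋃₀ F)) :
    ℵ₁ ≤ addSN := by
  obtain ⟨F, h1, h2⟩ := hne
  refine le_csInf ⟨_, F, h1, h2, rfl⟩ ?_
  rintro κ ⟨G, h3, h4, rfl⟩
  by_contra hlt
  push Not at hlt
  exact h4 (isSN_sUnion ((Cardinal.countable_iff_lt_aleph_one G).2 hlt) h3)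

theorem aleph_one_le_domNumber : ℵ₁ ≤ domNumber := by
  refine le_csInf ⟨_, Set.univ, fun g => ⟨g, Set.mem_univ _, Eventually.of_forall fun n => le_rfl⟩,
    rfl⟩ ?_
  rintro κ ⟨D, h1, rfl⟩
  by_contra hlt
  push Not at hlt
  have hc : D.Countable := (Cardinal.countable_iff_lt_aleph_one D).2 hlt
  have hne : D.Nonempty := by
    obtain ⟨f, hf, -⟩ := h1 0
    exact ⟨f, hf⟩
  obtain ⟨g, rfl⟩ := hc.exists_eq_range hne
  obtain ⟨f, ⟨i, rfl⟩, hi⟩ := h1 fun n => (Finset.range (n + 1)).sup (fun j => g j n) + 1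
  obtain ⟨m, hm⟩ := eventually_atTop.1 hi
  have h2 := hm (m + i) (by omega)
  have h3 : g i (m + i) ≤ (Finset.range (m + i + 1)).sup (fun j => g j (m + i)) :=
    Finset.le_sup (f := fun j => g j (m + i)) (Finset.mem_range.2 (by omega))
  omega

end TukeySN
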