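import Mathlib

/-!
Strong measure zero sets, the ideals `I_f`, Tukey reductions and dominating systems: definitions.
-/

namespace TukeySN

open Cardinal

/-- The point `x` of the Cantor space extends the finite string `s`. -/
def Ext (x : ℕ → Bool) (s : List Bool) : Prop :=
  ∀ (i : ℕ) (h : i < s.length), s[i] = x i

/-- `[σ]_∞`: the points extending `σ n` for infinitely many `n`. -/
def inftySet (σ : ℕ → List Bool) : Set (ℕ → Bool) :=
  {x | ∀ m, ∃ n, m ≤ n ∧ Ext x (σ n)}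

/-- Strong measure zero: for every `f` some `σ` with `|σ n| = f n` has `X ⊆ ⋃ n, [σ n]`. -/
def IsSN (X : Set (ℕ → Bool)) : Prop :=
  ∀ f : ℕ → ℕ, ∃ σ : ℕ → List Bool, (∀ n, (σ n).length = f n) ∧ ∀ x ∈ X, ∃ n, Ext x (σ n)

/-- `f ≪ g`: for every `k`, `f (n ^ k) ≤ g n` for all but finitely many `n`. -/
def LL (f g : ℕ → ℕ) : Prop :=
  ∀ k : ℕ, ∀ᶠ n in Filter.atTop, f (n ^ k) ≤ g n

/-- The ideal `I_f`. -/
def YI (f : ℕ → ℕ) : Set (Set (ℕ → Bool)) :=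
  {X | ∃ σ : ℕ → List Bool, X ⊆ inftySet σ ∧ LL f fun n => (σ n).length}

/-- `non I`: the least size of a subset of the Cantor space which is not in `I`. -/
noncomputable def non (I : Set (Set (ℕ → Bool))) : Cardinal.{0} :=
  sInf {κ | ∃ X : Set (ℕ → Bool), X ∉ I ∧ #X = κ}

/-- `minnon`: the least `non I_f`, `f` increasing. -/
noncomputable def minnon : Cardinal.{0} :=
  sInf {κ | ∃ f : ℕ → ℕ, StrictMono f ∧ non (YI f) = κ}

/-- `add SN`: the least size of a family of strong measure zero sets whose union does not have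
strong measure zero. -/
noncomputable def addSN : Cardinal.{0} :=
  sInf {κ | ∃ F : Set (Set (ℕ → Bool)), (∀ X ∈ F, IsSN X) ∧ ¬ IsSN (⋃₀ F) ∧ #F = κ}

/-- The dominating number `d`: the least size of a dominating family in `ω^ω`. -/
noncomputable def domNumber : Cardinal.{0} :=
  sInf {κ | ∃ D : Set (ℕ → ℕ), (∀ g : ℕ → ℕ, ∃ f ∈ D, ∀ᶠ n in Filter.atTop, g n ≤ f n) ∧ #D = κ}

/-- Tukey reduction `⟨X, Y, R⟩ ≼_T ⟨X', Y', R'⟩` of relational systems. -/
def TukeyLE {X Y X' Y' : Type} (R : X → Y → Prop) (R' : X' → Y' → Prop) : Prop :=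
  ∃ (Ψ₁ : X → X') (Ψ₂ : Y' → Y), ∀ x y', R' (Ψ₁ x) y' → R x (Ψ₂ y')

/-- The family of strong measure zero sets. -/
abbrev SNFam : Type := {X : Set (ℕ → Bool) // IsSN X}

/-- `f` is dominated by a member of the family and all members are strictly increasing. -/
def IsIncDominating {ι : Type} (f : ι → ℕ → ℕ) : Prop :=
  (∀ γ, StrictMono (f γ)) ∧ ∀ g : ℕ → ℕ, ∃ γ, ∀ᶠ n in Filter.atTop, g n ≤ f γ n

/-- `A` is an `I_f` directed system on `S`. -/
def IsDirSystem {S : Type} [PartialOrder S] (f : ℕ → ℕ) (A : S → Set (ℕ → Bool)) : Prop :=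
  (∀ i, Dense (A i) ∧ IsGδ (A i) ∧ A i ∈ YI f) ∧ (∀ i j, i ≤ j → A i ⊆ A j) ∧
    ∀ X ∈ YI f, ∃ i, X ⊆ A i

/-- There is a `κ`-dominating system on `S`, where `i₀` is the minimum of `S`. -/
def HasDomSystem (κ : Cardinal.{0}) (S : Type) [PartialOrder S] (i₀ : S) : Prop :=
  ∃ (f : κ.ord.ToType → ℕ → ℕ) (A : κ.ord.ToType → S → Set (ℕ → Bool)),
    IsIncDominating f ∧ (∀ γ, IsDirSystem (f γ) (A γ)) ∧
      ∀ γ, (⋂ η, ⋂ (_ : η < γ), A η i₀) ∉ YI (f γ)

/-- The hypotheses of Q1 on the cardinal `κ` and the partial order `S`: `S` is directed, has a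
minimum and no maximum, (i) `κ ≼_T S`, (ii) there is a `κ`-dominating system on `S`,
(iii) `κ ≤ minnon`. -/
def Hyp (κ : Cardinal.{0}) (S : Type) [PartialOrder S] : Prop :=
  (∀ a b : S, ∃ c, a ≤ c ∧ b ≤ c) ∧ (¬ ∃ m : S, ∀ a, a ≤ m) ∧
    TukeyLE (fun a b : κ.ord.ToType => a ≤ b) (fun a b : S => a ≤ b) ∧
    (∃ i₀ : S, (∀ a, i₀ ≤ a) ∧ HasDomSystem κ S i₀) ∧ κ ≤ minnon

/-- The conclusion of Q1: `D_κ^κ ≼_T SN`. -/
def Concl (κ : Cardinal.{0}) : Prop :=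
  TukeyLE (fun x y : κ.ord.ToType → κ.ord.ToType => ∀ γ, x γ ≤ y γ)
    (fun X Y : SNFam => X.1 ⊆ Y.1)

end TukeySN
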