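import Pool.Agent.Helper70.SN.Main

/-!
Existence of `S` as in Q1 for `λ = ℵ₁`, when `d = ℵ₁`.
-/

namespace TukeySN

open Cardinal Filter

open Classical in
/-- A growth rate attached to a dense Gδ set. -/
noncomputable def levC (C : Set (ℕ → Bool)) : ℕ → ℕ :=
  if h : Dense C ∧ IsGδ C then
    lev (exists_scheme h.1 h.2).choose (exists_scheme h.1 h.2).choose_spec.1
      (exists_scheme h.1 h.2).choose_spec.2.1
  else 0

theorem not_mem_YI {C : Set (ℕ → Bool)} (hd : Dense C) (hg : IsGδ C) {f : ℕ → ℕ}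
    (h : ∀ n, levC C (n + 1) ≤ f n) : C ∉ YI f := by
  rintro ⟨σ, h1, h2⟩
  have h3 : levC C = lev (exists_scheme hd hg).choose (exists_scheme hd hg).choose_spec.1
      (exists_scheme hd hg).choose_spec.2.1 := by
    rw [levC, dif_pos ⟨hd, hg⟩]
  obtain ⟨x, hx⟩ := exists_not_mem (exists_scheme hd hg).choose
    (exists_scheme hd hg).choose_spec.1 (exists_scheme hd hg).choose_spec.2.1 (σ := σ) (by
      filter_upwards [h2 1] with n hn
      rw [pow_one] at hn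
      rw [← h3]
      exact (h n).trans hn)
  refine hx (h1 ?_)
  have h4 := (exists_scheme hd hg).choose_spec.2.2
  have h5 : e (exists_scheme hd hg).choose (exists_scheme hd hg).choose_spec.1
      (exists_scheme hd hg).choose_spec.2.1 x ∈ ⋂ n, (exists_scheme hd hg).choose n :=
    Set.mem_iInter.2 fun n => e_mem _ _ _ _ _
  exact (Set.ext_iff.1 h4 _).2 h5

/-- The functions `f_γ`, defined by recursion on `γ < ω₁`. -/
noncomputable def fam (g : W → ℕ → ℕ) : W → ℕ → ℕ :=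
  WellFounded.fix (wellFounded_lt (α := W)) fun γ prev n =>
    ∑ i ∈ Finset.range (n + 1), (g γ i +
      levC (⋂ η, ⋂ (h : η < γ), Aof (prev η h)) (i + 1) + 1)

theorem fam_eq (g : W → ℕ → ℕ) (γ : W) (n : ℕ) : fam g γ n =
    ∑ i ∈ Finset.range (n + 1), (g γ i +
      levC (⋂ η, ⋂ (_ : η < γ), Aof (fam g η)) (i + 1) + 1) := by
  rw [fam, WellFounded.fix_eq]

theorem fam_strictMono (g : W → ℕ → ℕ) (γ : W) : StrictMono (fam g γ) := by
  refine strictMono_nat_of_lt_succ fun n => ?_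
  rw [fam_eq, fam_eq, Finset.sum_range_succ _ (n + 1)]
  omega

theorem le_fam (g : W → ℕ → ℕ) (γ : W) (n : ℕ) : g γ n ≤ fam g γ n := by
  rw [fam_eq, Finset.sum_range_succ]
  omega

theorem lev_le_fam (g : W → ℕ → ℕ) (γ : W) (n : ℕ) :
    levC (⋂ η, ⋂ (_ : η < γ), Aof (fam g η)) (n + 1) ≤ fam g γ n := by
  rw [fam_eq, Finset.sum_range_succ]
  omega

/-- The factor of `S` belonging to `f_γ`. -/
def Fac (f : ℕ → ℕ) : Type :=
  {B : Set (ℕ → Bool) // Dense B ∧ IsGδ B ∧ B ∈ YI f ∧ Aof f ⊆ B}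

instance (f : ℕ → ℕ) : PartialOrder (Fac f) := Subtype.partialOrder _

theorem exists_hyp (hdom : domNumber = ℵ₁) : ∃ (S : Type) (_ : PartialOrder S), Hyp ℵ₁ S := by
  classical
  have hne : {κ : Cardinal.{0} | ∃ D : Set (ℕ → ℕ),
      (∀ g : ℕ → ℕ, ∃ f ∈ D, ∀ᶠ n in Filter.atTop, g n ≤ f n) ∧ #D = κ}.Nonempty :=
    ⟨_, Set.univ, fun g => ⟨g, Set.mem_univ _, Eventually.of_forall fun n => le_rfl⟩, rfl⟩
  have hmem := csInf_mem hne
  rw [← domNumber, hdom] at hmem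
  obtain ⟨D, hD1, hD2⟩ := hmem
  obtain ⟨φ⟩ : Nonempty (W ≃ D) := Cardinal.eq.1 (by rw [mk_W, hD2])
  set g : W → ℕ → ℕ := fun α => (φ α).1 with hg
  set f := fam g with hf
  have hfm : ∀ γ, StrictMono (f γ) := fam_strictMono g
  have hbase : ∀ γ, Dense (Aof (f γ)) ∧ IsGδ (Aof (f γ)) ∧ Aof (f γ) ∈ YI (f γ) ∧
      Aof (f γ) ⊆ Aof (f γ) := fun γ => ⟨dense_Aof _, isGδ_Aof _, Aof_mem (hfm γ), subset_rfl⟩
  have hno : NoMaxOrder W := Cardinal.noMaxOrder (Cardinal.aleph0_le_aleph 1)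
  have hWne : Nonempty W := by
    rw [← Cardinal.mk_ne_zero_iff, mk_W]
    exact (Cardinal.aleph_pos 1).ne'
  obtain ⟨w₀, hw₀⟩ : ∃ w₀ : W, ∀ w, w₀ ≤ w := by
    refine ⟨(wellFounded_lt (α := W)).min Set.univ Set.univ_nonempty, fun w => ?_⟩
    exact not_lt.1 ((wellFounded_lt (α := W)).not_lt_min Set.univ (Set.mem_univ w))
  refine ⟨(∀ γ, Fac (f γ)) × W, inferInstance, ?_, ?_, ?_, ?_, aleph_one_le_minnon⟩
  · rintro ⟨a, α⟩ ⟨b, β⟩
    have h1 : ∀ γ, ∃ B : Fac (f γ), a γ ≤ B ∧ b γ ≤ B := by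
      intro γ
      obtain ⟨B, h2, h3, h4, h5, h6⟩ := exists_superset (hfm γ)
        (YI.union_mem (hfm γ) (a γ).2.2.2.1 (b γ).2.2.2.1)
      exact ⟨⟨B, h2, h3, h4, h5⟩, Set.subset_union_left.trans h6, Set.subset_union_right.trans h6⟩
    choose B hB using h1
    exact ⟨⟨B, max α β⟩, ⟨fun γ => (hB γ).1, le_max_left _ _⟩, ⟨fun γ => (hB γ).2, le_max_right _ _⟩⟩
  · rintro ⟨⟨m, μ⟩, hm⟩
    obtain ⟨ν, hν⟩ := exists_gt μ
    exact absurd (hm ⟨m, ν⟩).2 (not_le.2 hν)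
  · refine ⟨fun α => ⟨fun γ => ⟨Aof (f γ), hbase γ⟩, α⟩, fun s => s.2, fun x y h => h.2⟩
  · refine ⟨⟨fun γ => ⟨Aof (f γ), hbase γ⟩, w₀⟩, fun a => ⟨fun γ => (a.1 γ).2.2.2.2, hw₀ _⟩, ?_⟩
    refine ⟨f, fun γ s => (s.1 γ).1, ⟨hfm, fun h => ?_⟩, fun γ => ⟨fun i => ?_, fun i j hij => ?_,
      fun X hX => ?_⟩, fun γ => ?_⟩
    · obtain ⟨k, hk, hk2⟩ := hD1 h
      obtain ⟨γ, hγ⟩ := φ.surjective ⟨k, hk⟩
      refine ⟨γ, hk2.mono fun n hn => hn.trans ?_⟩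
      have := le_fam g γ n
      simp only [hg, hγ] at this
      exact this
    · exact ⟨(i.1 γ).2.1, (i.1 γ).2.2.1, (i.1 γ).2.2.2.1⟩
    · exact hij.1 γ
    · obtain ⟨B, h2, h3, h4, h5, h6⟩ := exists_superset (hfm γ) hX
      refine ⟨⟨Function.update (fun γ => ⟨Aof (f γ), hbase γ⟩) γ ⟨B, h2, h3, h4, h5⟩, w₀⟩, ?_⟩
      have h7 : (Function.update (fun γ => (⟨Aof (f γ), hbase γ⟩ : Fac (f γ))) γ
          ⟨B, h2, h3, h4, h5⟩) γ = ⟨B, h2, h3, h4, h5⟩ := Function.update_self _ _ _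
      exact fun x hx => (Set.ext_iff.1 (congrArg Subtype.val h7) x).2 (h6 hx)
    · have h1 := gδ_inter (A := fun η => Aof (f η)) (countable_Iio γ) (fun η => dense_Aof _)
        (fun η => isGδ_Aof _)
      exact not_mem_YI h1.1 h1.2 (lev_le_fam g γ)

theorem domNumber_of_hyp {S : Type} [PartialOrder S] (hS : Hyp ℵ₁ S) : domNumber = ℵ₁ := by
  obtain ⟨-, -, -, ⟨i₀, -, f, A, hf, -⟩, -⟩ := hS
  refine le_antisymm ?_ aleph_one_le_domNumber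
  have hmem : ∀ c : Cardinal.{0}, (c ∈ {κ : Cardinal.{0} | ∃ D : Set (ℕ → ℕ),
      (∀ g : ℕ → ℕ, ∃ f ∈ D, ∀ᶠ n in Filter.atTop, g n ≤ f n) ∧ #D = κ}) → domNumber ≤ c :=
    fun c hc => csInf_le' hc
  refine (hmem _ ⟨Set.range f, fun g => ?_, rfl⟩).trans ?_
  · obtain ⟨γ, hγ⟩ := hf.2 g
    exact ⟨f γ, ⟨γ, rfl⟩, hγ⟩
  · refine Cardinal.mk_range_le.trans ?_
    rw [Cardinal.mk_ord_toType]

end TukeySN
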