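import Pool.Agent.Helper70.SN.Tree

/-!
The implication of Q1 for `λ = ℵ₁`.
-/

namespace TukeySN

open Cardinal Filter

/-- The index set `ω₁`. -/
abbrev W : Type := (ℵ₁ : Cardinal.{0}).ord.ToType

theorem mk_W : #W = ℵ₁ := Cardinal.mk_ord_toType _

theorem isGδ_inftySet (σ : ℕ → List Bool) : IsGδ (inftySet σ) := by
  have : inftySet σ = ⋂ m : ℕ, ⋃ n : ℕ, ⋃ (_ : m ≤ n), {x | Ext x (σ n)} := by
    ext x
    simp [inftySet]
  rw [this]
  refine IsGδ.iInter_of_isOpen fun m => ?_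
  exact isOpen_iUnion fun n => isOpen_iUnion fun _ => isOpen_ext _

theorem dense_inftySet {σ : ℕ → List Bool} (h : ∀ (s : List Bool) (m : ℕ), ∃ n, m ≤ n ∧ s <+: σ n) :
    Dense (inftySet σ) := by
  have : inftySet σ = ⋂ m : ℕ, ⋃ n : ℕ, ⋃ (_ : m ≤ n), {x | Ext x (σ n)} := by
    ext x
    simp [inftySet]
  rw [this]
  refine dense_iInter_of_isOpen (fun m => isOpen_iUnion fun n => isOpen_iUnion fun _ => isOpen_ext _)
    fun m => ?_
  rw [dense_iff_inter_open]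
  rintro V hV ⟨z, hz⟩
  obtain ⟨N, hN⟩ := exists_cyl hV hz
  obtain ⟨n, hn, hs⟩ := h (rst z N) m
  refine ⟨pt (σ n), hN _ ((ext_pt (σ n)).of_prefix hs), ?_⟩
  simp only [Set.mem_iUnion]
  exact ⟨n, hn, ext_pt _⟩

/-- The strings defining the basic dense Gδ set of `I_f`. -/
def baseσ (f : ℕ → ℕ) (n : ℕ) : List Bool :=
  (Encodable.decode (α := List Bool) n).getD [] ++ List.replicate (f (n ^ n)) false

/-- A dense Gδ set in `I_f`. -/
def Aof (f : ℕ → ℕ) : Set (ℕ → Bool) := inftySet (baseσ f)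

theorem isGδ_Aof (f : ℕ → ℕ) : IsGδ (Aof f) := isGδ_inftySet _

theorem dense_Aof (f : ℕ → ℕ) : Dense (Aof f) := by
  refine dense_inftySet fun s m => ?_
  have hinj : Function.Injective fun j : ℕ => Encodable.encode (s ++ List.replicate j false) := by
    intro i j hij
    have := congrArg List.length (Encodable.encode_injective hij)
    simpa using this
  obtain ⟨j, hj⟩ : ∃ j : ℕ, m ≤ Encodable.encode (s ++ List.replicate j false) := by
    by_contra hcon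
    push Not at hcon
    have hfin : (Set.range fun j : ℕ => Encodable.encode (s ++ List.replicate j false)).Finite :=
      (Set.finite_Iio m).subset (by rintro _ ⟨j, rfl⟩; exact hcon j)
    exact Set.infinite_range_of_injective hinj hfin
  refine ⟨_, hj, ?_⟩
  rw [baseσ, Encodable.encodek]
  simp only [Option.getD_some]
  exact (List.prefix_append _ _).trans (List.prefix_append _ _)

theorem Aof_mem {f : ℕ → ℕ} (hf : StrictMono f) : Aof f ∈ YI f := by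
  refine ⟨baseσ f, subset_rfl, fun k => ?_⟩
  filter_upwards [eventually_ge_atTop (k + 1)] with n hn
  rw [baseσ, List.length_append, List.length_replicate]
  have : f (n ^ k) ≤ f (n ^ n) := hf.monotone (Nat.pow_le_pow_right (by omega) (by omega))
  omega

theorem exists_superset {f : ℕ → ℕ} (hf : StrictMono f) {X : Set (ℕ → Bool)} (hX : X ∈ YI f) :
    ∃ B : Set (ℕ → Bool), Dense B ∧ IsGδ B ∧ B ∈ YI f ∧ Aof f ⊆ B ∧ X ⊆ B := by
  obtain ⟨ρ, h1, h2⟩ := YI.union_aux hf (Aof_mem hf) hX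
  refine ⟨inftySet ρ, (dense_Aof f).mono (Set.subset_union_left.trans h1), isGδ_inftySet ρ,
    ⟨ρ, subset_rfl, h2⟩, Set.subset_union_left.trans h1, Set.subset_union_right.trans h1⟩

theorem exists_scheme {C : Set (ℕ → Bool)} (hd : Dense C) (hg : IsGδ C) :
    ∃ U : ℕ → Set (ℕ → Bool), (∀ n, IsOpen (U n)) ∧ (∀ n, Dense (U n)) ∧ C = ⋂ n, U n := by
  obtain ⟨U, hU, rfl⟩ := hg.eq_iInter_nat
  exact ⟨U, hU, fun n => hd.mono (Set.iInter_subset U n), rfl⟩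

theorem gδ_inter {ι : Type} {A : ι → Set (ℕ → Bool)} {s : Set ι} (hs : s.Countable)
    (hd : ∀ i, Dense (A i)) (hg : ∀ i, IsGδ (A i)) :
    Dense (⋂ i, ⋂ (_ : i ∈ s), A i) ∧ IsGδ (⋂ i, ⋂ (_ : i ∈ s), A i) :=
  ⟨dense_biInter_of_Gδ (fun i _ => hg i) hs fun i _ => hd i, IsGδ.biInter hs fun i _ => hg i⟩

/-- The positive direction. -/
theorem concl_of_addSN {S : Type} [PartialOrder S] {i₀ : S} (hsys : HasDomSystem ℵ₁ S i₀)
    (hadd : addSN = ℵ₁) : Concl ℵ₁ := by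
  classical
  obtain ⟨f, A, hf, hA, -⟩ := hsys
  -- the unbounded family
  have hne : ∃ F : Set (Set (ℕ → Bool)), (∀ X ∈ F, IsSN X) ∧ ¬ IsSN (⋃₀ F) ∧ #F = ℵ₁ := by
    have hnonempty : {κ : Cardinal.{0} | ∃ F : Set (Set (ℕ → Bool)),
        (∀ X ∈ F, IsSN X) ∧ ¬ IsSN (⋃₀ F) ∧ #F = κ}.Nonempty := by
      by_contra hcon
      rw [Set.not_nonempty_iff_eq_empty] at hcon
      rw [addSN, hcon, Cardinal.sInf_empty] at hadd
      exact (Cardinal.aleph_pos 1).ne hadd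
    have := csInf_mem hnonempty
    rw [← addSN, hadd] at this
    exact this
  obtain ⟨F, hF1, hF2, hF3⟩ := hne
  obtain ⟨φ⟩ : Nonempty (W ≃ F) := Cardinal.eq.1 (by rw [mk_W, hF3])
  set N : W → Set (ℕ → Bool) := fun α => ⋃ β : Set.Iic α, (φ β.1).1 with hN
  have hNsn : ∀ α, IsSN (N α) := by
    intro α
    have : Countable (Set.Iic α) := (countable_Iic α).to_subtype
    exact isSN_iUnion fun β => hF1 _ (φ β.1).2
  have hNmono : ∀ α β, α ≤ β → N α ⊆ N β := by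
    intro α β hαβ x hx
    obtain ⟨⟨δ, hδ⟩, hx⟩ := Set.mem_iUnion.1 hx
    exact Set.mem_iUnion.2 ⟨⟨δ, le_trans hδ hαβ⟩, hx⟩
  have hNun : ⋃₀ F ⊆ ⋃ α, N α := by
    rintro x ⟨X, hX, hx⟩
    obtain ⟨α, hα⟩ := φ.surjective ⟨X, hX⟩
    refine Set.mem_iUnion.2 ⟨α, Set.mem_iUnion.2 ⟨⟨α, Set.mem_Iic.2 le_rfl⟩, ?_⟩⟩
    rw [hα]
    exact hx
  -- the Cantor schemes
  have hC : ∀ γ : W, Dense (⋂ η, ⋂ (_ : η ∈ Set.Iio γ), A η i₀) ∧
      IsGδ (⋂ η, ⋂ (_ : η ∈ Set.Iio γ), A η i₀) := fun γ =>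
    gδ_inter (countable_Iio γ) (fun η => ((hA η).1 i₀).1) (fun η => ((hA η).1 i₀).2.1)
  choose U hU hd hUC using fun γ : W => exists_scheme (hC γ).1 (hC γ).2
  set E : W → (ℕ → Bool) → (ℕ → Bool) := fun γ => e (U γ) (hU γ) (hd γ) with hE
  have hEC : ∀ γ η x, η < γ → E γ x ∈ A η i₀ := by
    intro γ η x hη
    have h1 : E γ x ∈ ⋂ n, U γ n := Set.mem_iInter.2 fun n => e_mem _ _ _ _ _
    rw [← hUC γ] at h1
    exact Set.mem_iInter₂.1 h1 η hη
  -- the sets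
  set X : (W → W) → Set (ℕ → Bool) := fun x => ⋃ γ, E γ '' N (x γ) with hX
  have hXsn : ∀ x, IsSN (X x) := by
    intro x
    refine isSN_of_forall_mem_YI hf fun η => ?_
    have h1 : X x ⊆ (⋃ γ : Set.Iic η, E γ.1 '' N (x γ.1)) ∪ A η i₀ := by
      intro z hz
      obtain ⟨γ, hγ⟩ := Set.mem_iUnion.1 hz
      rcases le_or_gt γ η with h | h
      · exact Or.inl (Set.mem_iUnion.2 ⟨⟨γ, h⟩, hγ⟩)
      · obtain ⟨y, -, rfl⟩ := hγ
        exact Or.inr (hEC γ η y h)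
    have : Countable (Set.Iic η) := (countable_Iic η).to_subtype
    refine YI.mono (YI.union_mem (hf.1 η) ?_ ((hA η).1 i₀).2.2) h1
    exact (isSN_iUnion fun γ => isSN_image _ _ _ (hNsn _)).mem_YI (hf.1 η)
  have hub : ∀ (Y : SNFam) (γ : W), ∃ α : W, ¬ E γ '' N α ⊆ Y.1 := by
    intro Y γ
    by_contra hcon
    push Not at hcon
    refine hF2 (IsSN.mono (isSN_of_image (U γ) (hU γ) (hd γ) (M := ⋃ α, N α) ?_) hNun)
    refine Y.2.mono ?_
    rintro _ ⟨z, hz, rfl⟩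
    obtain ⟨α, hα⟩ := Set.mem_iUnion.1 hz
    exact hcon α ⟨z, hα, rfl⟩
  choose Ψ hΨ using hub
  refine ⟨fun x => ⟨X x, hXsn x⟩, fun Y γ => Ψ Y γ, fun x Y hxY γ => ?_⟩
  by_contra hlt
  push Not at hlt
  refine hΨ Y γ (subset_trans ?_ hxY)
  refine (Set.image_mono (hNmono _ _ hlt.le)).trans ?_
  exact Set.subset_iUnion (fun γ => E γ '' N (x γ)) γ

/-- The negative direction, for every infinite cardinal. -/
theorem addSN_le_of_concl {κ : Cardinal.{0}} (hκ : ℵ₀ ≤ κ) (h : Concl κ) : addSN ≤ κ := by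
  obtain ⟨Ψ₁, Ψ₂, hΨ⟩ := h
  have h1 : ∀ α : κ.ord.ToType, IsSN (Ψ₁ fun _ => α).1 := fun α => (Ψ₁ fun _ => α).2
  have hno : NoMaxOrder κ.ord.ToType := Cardinal.noMaxOrder hκ
  have hnonempty : Nonempty κ.ord.ToType := by
    rw [← Cardinal.mk_ne_zero_iff, Cardinal.mk_ord_toType]
    exact (Cardinal.aleph0_pos.trans_le hκ).ne'
  have hmem : ∀ c : Cardinal.{0}, (c ∈ {κ | ∃ F : Set (Set (ℕ → Bool)),
      (∀ X ∈ F, IsSN X) ∧ ¬ IsSN (⋃₀ F) ∧ #F = κ}) → addSN ≤ c := fun c hc => csInf_le' hc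
  refine (hmem _ ⟨Set.range fun α : κ.ord.ToType => (Ψ₁ fun _ => α).1, ?_, ?_, rfl⟩).trans ?_
  · rintro _ ⟨α, rfl⟩
    exact h1 α
  · intro hsn
    obtain ⟨γ⟩ := hnonempty
    obtain ⟨α, hα⟩ := exists_gt (Ψ₂ ⟨_, hsn⟩ γ)
    have h2 := hΨ (fun _ => α) ⟨_, hsn⟩ (Set.subset_sUnion_of_mem ⟨α, rfl⟩) γ
    exact absurd h2 (not_le.2 hα)
  · refine (Cardinal.mk_range_le).trans ?_
    rw [Cardinal.mk_ord_toType]

theorem concl_iff {S : Type} [PartialOrder S] (hS : Hyp ℵ₁ S) : Concl ℵ₁ ↔ addSN = ℵ₁ := by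
  obtain ⟨-, -, -, ⟨i₀, -, hsys⟩, -⟩ := hS
  refine ⟨fun h => ?_, concl_of_addSN hsys⟩
  have h1 := addSN_le_of_concl (Cardinal.aleph0_le_aleph 1) h
  refine le_antisymm h1 ?_
  refine aleph_one_le_addSN ?_
  by_contra hcon
  push Not at hcon
  -- if SN is closed under all unions, the conclusion fails
  obtain ⟨Ψ₁, Ψ₂, hΨ⟩ := h
  have hsn : IsSN (⋃₀ Set.range fun α : W => (Ψ₁ fun _ => α).1) := by
    refine hcon _ ?_
    rintro _ ⟨α, rfl⟩
    exact (Ψ₁ fun _ => α).2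
  have hno : NoMaxOrder W := Cardinal.noMaxOrder (Cardinal.aleph0_le_aleph 1)
  have hnonempty : Nonempty W := by
    rw [← Cardinal.mk_ne_zero_iff, mk_W]
    exact (Cardinal.aleph_pos 1).ne'
  obtain ⟨γ⟩ := hnonempty
  obtain ⟨α, hα⟩ := exists_gt (Ψ₂ ⟨_, hsn⟩ γ)
  have h2 := hΨ (fun _ => α) ⟨_, hsn⟩ (Set.subset_sUnion_of_mem ⟨α, rfl⟩) γ
  exact absurd h2 (not_le.2 hα)

end TukeySN
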