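import Pool.Agent.Helper70.SN.Basic

/-!
A Cantor scheme inside a dense Gδ subset of the Cantor space.
-/

namespace TukeySN

open Cardinal Filter

/-- The first `n` values of `x`. -/
def rst (x : ℕ → Bool) (n : ℕ) : List Bool := List.ofFn fun i : Fin n => x i

theorem ext_rst_iff {x y : ℕ → Bool} {n : ℕ} : Ext y (rst x n) ↔ ∀ i < n, x i = y i := by
  constructor
  · intro h i hi
    have := h i (by rw [rst, List.length_ofFn]; exact hi)
    simpa [rst] using this
  · intro h i hi
    rw [rst, List.length_ofFn] at hi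
    simpa [rst] using h i hi

theorem length_rst (x : ℕ → Bool) (n : ℕ) : (rst x n).length = n := List.length_ofFn

theorem rst_prefix_of_ext {x y : ℕ → Bool} {s : List Bool} {n : ℕ} (hs : Ext x s)
    (hy : Ext y (rst x n)) (h : s.length ≤ n) : Ext y s := by
  intro i hi
  rw [hs i hi]
  exact ext_rst_iff.1 hy i (by omega)

theorem ext_getElem {x : ℕ → Bool} {s : List Bool} (h : Ext x s) : s = rst x s.length := by
  apply List.ext_getElem
  · rw [length_rst]
  · intro i h1 h2
    rw [h i h1]
    simp [rst]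

theorem prefix_of_ext {x : ℕ → Bool} {s t : List Bool} (hs : Ext x s) (ht : Ext x t)
    (h : s.length ≤ t.length) : s <+: t := by
  rw [List.prefix_iff_eq_take]
  apply List.ext_getElem
  · rw [List.length_take]
    exact (min_eq_left h).symm
  · intro i h1 h2
    rw [hs i h1, List.getElem_take, ht i (by omega)]

theorem exists_cyl {U : Set (ℕ → Bool)} (hU : IsOpen U) {z : ℕ → Bool} (hz : z ∈ U) :
    ∃ N, ∀ w : ℕ → Bool, Ext w (rst z N) → w ∈ U := by
  obtain ⟨_, ⟨x, n, rfl⟩, h1, h2⟩ :=
    (PiNat.isTopologicalBasis_cylinders fun _ : ℕ => Bool).exists_subset_of_mem_open hz hU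
  refine ⟨n, fun w hw => h2 ?_⟩
  rw [PiNat.mem_cylinder_iff] at h1 ⊢
  intro i hi
  rw [← h1 i hi, ext_rst_iff.1 hw i hi]

theorem isOpen_ext (s : List Bool) : IsOpen {x : ℕ → Bool | Ext x s} := by
  have : {x : ℕ → Bool | Ext x s} = ⋂ i : Fin s.length, {x : ℕ → Bool | s[i] = x i} := by
    ext x
    simp only [Set.mem_setOf_eq, Set.mem_iInter]
    exact ⟨fun h i => h i i.2, fun h i hi => h ⟨i, hi⟩⟩
  rw [this]
  refine isOpen_iInter_of_finite fun i => ?_
  exact (isOpen_discrete {b : Bool | s[i] = b}).preimage (continuous_apply (i : ℕ))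

/-- An infinite extension of `s`. -/
def pt (s : List Bool) : ℕ → Bool := fun i => s.getD i false

theorem ext_pt (s : List Bool) : Ext (pt s) s := by
  intro i hi
  rw [pt, List.getD_eq_getElem _ _ hi]

theorem exists_extension {U : Set (ℕ → Bool)} (hU : IsOpen U) (hd : Dense U) (t : List Bool) :
    ∃ t' : List Bool, t <+: t' ∧ ∀ z : ℕ → Bool, Ext z t' → z ∈ U := by
  obtain ⟨z, hz1, hz2⟩ := hd.inter_open_nonempty _ (isOpen_ext t) ⟨pt t, ext_pt t⟩
  obtain ⟨N, hN⟩ := exists_cyl hU hz2
  refine ⟨rst z (max N t.length), ?_, fun w hw => hN w ?_⟩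
  · refine prefix_of_ext (x := z) hz1 ?_ ?_
    · exact ext_rst_iff.2 fun _ _ => rfl
    · rw [length_rst]
      exact le_max_right _ _
  · rw [ext_rst_iff] at hw ⊢
    exact fun i hi => hw i (lt_of_lt_of_le hi (le_max_left _ _))

section Scheme

variable (U : ℕ → Set (ℕ → Bool)) (hU : ∀ n, IsOpen (U n)) (hd : ∀ n, Dense (U n))

/-- The chosen extension of `t ++ [b]` which forces membership in `U n`. -/
noncomputable def nxt (t : List Bool) (b : Bool) (n : ℕ) : List Bool :=
  (exists_extension (hU n) (hd n) (t ++ [b])).choose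

theorem nxt_prefix (t : List Bool) (b : Bool) (n : ℕ) : t ++ [b] <+: nxt U hU hd t b n :=
  (exists_extension (hU n) (hd n) (t ++ [b])).choose_spec.1

theorem nxt_mem (t : List Bool) (b : Bool) (n : ℕ) (z : ℕ → Bool)
    (hz : Ext z (nxt U hU hd t b n)) : z ∈ U n :=
  (exists_extension (hU n) (hd n) (t ++ [b])).choose_spec.2 z hz

/-- The string attached to the first `n` values of `x`. -/
noncomputable def c (x : ℕ → Bool) : ℕ → List Bool
  | 0 => []
  | n + 1 => nxt U hU hd (c x n) (x n) n

theorem c_congr {x y : ℕ → Bool} {n : ℕ} (h : ∀ i < n, x i = y i) :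
    c U hU hd x n = c U hU hd y n := by
  induction n with
  | zero => rfl
  | succ n ih =>
    simp only [c]
    rw [ih fun i hi => h i (by omega), h n (by omega)]

theorem c_succ_prefix (x : ℕ → Bool) (n : ℕ) :
    c U hU hd x n ++ [x n] <+: c U hU hd x (n + 1) := nxt_prefix U hU hd _ _ _

theorem c_prefix_succ (x : ℕ → Bool) (n : ℕ) : c U hU hd x n <+: c U hU hd x (n + 1) :=
  (List.prefix_append _ _).trans (c_succ_prefix U hU hd x n)

theorem c_prefix {x : ℕ → Bool} {m n : ℕ} (h : m ≤ n) : c U hU hd x m <+: c U hU hd x n := by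
  induction n, h using Nat.le_induction with
  | base => exact List.prefix_refl _
  | succ n _ ih => exact ih.trans (c_prefix_succ U hU hd x n)

theorem le_length_c (x : ℕ → Bool) (n : ℕ) : n ≤ (c U hU hd x n).length := by
  induction n with
  | zero => exact Nat.zero_le _
  | succ n ih =>
    have := (c_succ_prefix U hU hd x n).length_le
    rw [List.length_append, List.length_singleton] at this
    omega

/-- The embedding of the Cantor space. -/
noncomputable def e (x : ℕ → Bool) : ℕ → Bool := fun i => (c U hU hd x (i + 1)).getD i false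

theorem ext_e (x : ℕ → Bool) (n : ℕ) : Ext (e U hU hd x) (c U hU hd x n) := by
  intro i hi
  have h1 : i < (c U hU hd x (i + 1)).length := le_length_c U hU hd x (i + 1)
  rw [e, List.getD_eq_getElem _ _ h1]
  rcases le_total n (i + 1) with h | h
  · obtain ⟨u, hu⟩ := c_prefix U hU hd (x := x) h
    simp only [← hu]
    rw [List.getElem_append_left hi]
  · obtain ⟨u, hu⟩ := c_prefix U hU hd (x := x) h
    simp only [← hu]
    rw [List.getElem_append_left h1]

theorem e_mem (x : ℕ → Bool) (n : ℕ) : e U hU hd x ∈ U n :=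
  nxt_mem U hU hd _ _ _ _ (ext_e U hU hd x (n + 1))

/-- `x` and `y` agree below `n` if a single point extends both strings. -/
theorem agree_of_ext {x y z : ℕ → Bool} {n : ℕ} (h1 : Ext z (c U hU hd x n))
    (h2 : Ext z (c U hU hd y n)) : ∀ i < n, x i = y i := by
  induction n with
  | zero => intro i hi; omega
  | succ n ih =>
    have h3 := ih (h1.of_prefix (c_prefix_succ U hU hd x n)) (h2.of_prefix (c_prefix_succ U hU hd y n))
    have h4 := h1.of_prefix (c_succ_prefix U hU hd x n)
    have h5 := h2.of_prefix (c_succ_prefix U hU hd y n)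
    rw [c_congr U hU hd h3] at h4
    have h6 := h4 (c U hU hd y n).length (by simp)
    have h7 := h5 (c U hU hd y n).length (by simp)
    simp only [List.getElem_append_right le_rfl, Nat.sub_self, List.getElem_singleton] at h6 h7
    intro i hi
    rcases Nat.lt_succ_iff_lt_or_eq.1 hi with hi | rfl
    · exact h3 i hi
    · rw [h6, h7]

/-- A bound for the lengths of the strings of level `n`. -/
noncomputable def lev (n : ℕ) : ℕ :=
  (Finset.univ : Finset (Fin n → Bool)).sup fun s => (c U hU hd (pt (List.ofFn s)) n).length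

theorem length_c_le (x : ℕ → Bool) (n : ℕ) : (c U hU hd x n).length ≤ lev U hU hd n := by
  have h1 : c U hU hd x n = c U hU hd (pt (List.ofFn fun i : Fin n => x i)) n := by
    refine c_congr U hU hd fun i hi => ?_
    exact ((ext_rst_iff (x := x) (n := n)).1 (ext_pt (rst x n)) i hi)
  rw [h1]
  exact Finset.le_sup (f := fun s : Fin n → Bool => (c U hU hd (pt (List.ofFn s)) n).length)
    (Finset.mem_univ (fun i : Fin n => x i))

theorem isSN_image {N : Set (ℕ → Bool)} (hN : IsSN N) : IsSN (e U hU hd '' N) := by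
  intro f
  obtain ⟨τ, h1, h2⟩ := hN f
  refine ⟨fun n => (c U hU hd (pt (τ n)) (f n)).take (f n), fun n => ?_, ?_⟩
  · rw [List.length_take]
    exact min_eq_left (le_length_c U hU hd _ _)
  · rintro _ ⟨x, hx, rfl⟩
    obtain ⟨n, hn⟩ := h2 x hx
    refine ⟨n, ext_take ?_ _⟩
    rw [c_congr U hU hd (x := pt (τ n)) (y := x)]
    · exact ext_e U hU hd x (f n)
    · intro i hi
      rw [← hn i (by rw [h1]; exact hi), ← ext_pt (τ n) i (by rw [h1]; exact hi)]

theorem isSN_of_image {M : Set (ℕ → Bool)} (hM : IsSN (e U hU hd '' M)) : IsSN M := by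
  classical
  intro f
  obtain ⟨σ, h1, h2⟩ := hM fun n => lev U hU hd (f n)
  refine ⟨fun n => if h : ∃ y, Ext (e U hU hd y) (σ n) then rst h.choose (f n) else
    List.replicate (f n) false, fun n => ?_, fun x hx => ?_⟩
  · dsimp only
    split_ifs with h
    · exact length_rst _ _
    · exact List.length_replicate
  · obtain ⟨n, hn⟩ := h2 _ ⟨x, hx, rfl⟩
    have h3 : ∃ y, Ext (e U hU hd y) (σ n) := ⟨x, hn⟩
    refine ⟨n, ?_⟩
    simp only [h3, dif_pos]
    rw [ext_rst_iff]
    have h4 := h3.choose_spec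
    have h5 : c U hU hd h3.choose (f n) <+: σ n :=
      prefix_of_ext (ext_e U hU hd _ _) h4 (by rw [h1]; exact length_c_le U hU hd _ _)
    exact agree_of_ext U hU hd (z := e U hU hd x) (hn.of_prefix h5) (ext_e U hU hd x (f n))

/-- If the strings `σ n` are eventually long enough, some point of the Cantor scheme is not in
`[σ]_∞`. -/
theorem exists_not_mem {σ : ℕ → List Bool} (hσ : ∀ᶠ n in atTop, lev U hU hd (n + 1) ≤ (σ n).length) :
    ∃ x, e U hU hd x ∉ inftySet σ := by
  classical
  obtain ⟨m, hm⟩ := eventually_atTop.1 hσ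
  set dec : (ℕ → Bool) → ℕ → Bool := fun z n =>
    decide (∃ y, (∀ i < n, y i = z i) ∧ y n = false ∧ Ext (e U hU hd y) (σ n)) with hdec
  set g : ℕ → ℕ → Bool := fun n => Nat.rec (fun _ => false) (fun k z => Function.update z k (dec z k)) n
    with hg
  have hg0 : ∀ n, g (n + 1) = Function.update (g n) n (dec (g n) n) := fun n => rfl
  set x : ℕ → Bool := fun n => g (n + 1) n with hx
  have h1 : ∀ n i, i < n → g n i = x i := by
    intro n
    induction n with
    | zero => intro i hi; omega
    | succ n ih =>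
      intro i hi
      rcases Nat.lt_succ_iff_lt_or_eq.1 hi with hi | rfl
      · rw [hg0, Function.update_of_ne (by omega)]
        exact ih i hi
      · rfl
  have h2 : ∀ n, x n = dec x n := by
    intro n
    have : x n = dec (g n) n := by rw [hx]; simp only [hg0, Function.update_self]
    rw [this, hdec]
    simp only [decide_eq_decide]
    constructor
    · rintro ⟨y, h3, h4⟩
      exact ⟨y, fun i hi => (h3 i hi).trans (h1 n i hi), h4⟩
    · rintro ⟨y, h3, h4⟩
      exact ⟨y, fun i hi => (h3 i hi).trans (h1 n i hi).symm, h4⟩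
  refine ⟨x, fun hmem => ?_⟩
  obtain ⟨n, hn, he⟩ := hmem m
  have h3 := hm n hn
  have h4 := h2 n
  cases hb : x n
  · rw [hb, hdec] at h4
    have h5 := of_decide_eq_false h4.symm
    exact h5 ⟨x, fun _ _ => rfl, hb, he⟩
  · rw [hb, hdec] at h4
    obtain ⟨y, h5, h6, h7⟩ := of_decide_eq_true h4.symm
    have h8 : c U hU hd y (n + 1) <+: σ n :=
      prefix_of_ext (ext_e U hU hd _ _) h7 ((length_c_le U hU hd _ _).trans h3)
    have h9 := agree_of_ext U hU hd (z := e U hU hd x) (he.of_prefix h8) (ext_e U hU hd x (n + 1)) n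
      (by omega)
    rw [h6, hb] at h9
    exact absurd h9 (by decide)

end Scheme

end TukeySN
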